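import Pool.Agent.H42.Csn1

open Cardinal Pool.Agent.H42.Bau Pool.Agent.H42.IMeag

theorem Pool.Agent.Results.MP_6906cd_lc.Bnd.result (h : bN = ℵ₁ ∨ bN ≤ nonSN) : bN < cofSN :=
  cof_gt fun A b => h.elim (fun a => sn_countable ((countable_iff_lt_aleph_one A).2 (a ▸ b)))
    fun a => by
      by_contra c
      exact (b.trans_le a).not_ge (csInf_le' ⟨A, c, rfl⟩)
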